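import Pool.Agent.Q56.UN.Sq2

/-!
# Pairs of almost primes between consecutive squares with fixed sum
-/

set_option autoImplicit false

namespace Pool.Agent.Results.MP_e94e4b_nt.AlmostPrimePairs

open Finset

/-- `v` is a product of at least one and at most `t` primes, all of them larger than `y` -/
def Alm (t : ℕ) (y : ℝ) (v : ℕ) : Prop :=
  1 < v ∧ v.primeFactorsList.length ≤ t ∧ ∀ q : ℕ, q.Prime → q ∣ v → y < q

/-- the product of the local densities for the primes `q ≤ 2 N`: the product `(N ^ 2 + k + 1) ((N + 1) ^ 2 - k)` is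
divisible by `q` for one class of `k` modulo `q` if `q ∣ 2 (N ^ 2 + N + 1)`, and for two classes otherwise -/
noncomputable def V (N : ℕ) : ℝ :=
  ∏ q ∈ (Icc 1 (2 * N)).filter Nat.Prime, (1 - (if q ∣ 2 * (N ^ 2 + N + 1) then 1 else 2) / (q : ℝ))

/-- There are `R, N₀, C` and `δ, κ > 0` such that for all `N ≥ N₀`, `V N ≥ κ / (log N) ^ 2`, at least `κ N V N` of the
numbers `2 ≤ k ≤ 2 N` have `N ^ 2 + k + 1` and `(N + 1) ^ 2 - k` both products of at most `R` primes, all larger than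
`N ^ δ`, and at most `C N V N` of them have both numbers prime. -/
theorem result : ∃ (R N₀ : ℕ) (δ κ C : ℝ), 0 < δ ∧ 0 < κ ∧ 0 < C ∧ ∀ N : ℕ, N₀ ≤ N →
    κ / Real.log N ^ 2 ≤ V N ∧
    (∃ S : Finset ℕ, κ * (N * V N) ≤ (S.card : ℝ) ∧ ∀ k ∈ S, 2 ≤ k ∧ k ≤ 2 * N ∧
      Alm R ((N : ℝ) ^ δ) (N ^ 2 + k + 1) ∧ Alm R ((N : ℝ) ^ δ) ((N + 1) ^ 2 - k)) ∧
    ∀ S : Finset ℕ, (∀ k ∈ S, 2 ≤ k ∧ k ≤ 2 * N ∧ (N ^ 2 + k + 1).Prime ∧ ((N + 1) ^ 2 - k).Prime) →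
      (S.card : ℝ) ≤ C * (N * V N) := by
  classical
  obtain ⟨R, N₀, δ, κ, C, hδ, hκ, hC, h⟩ := Pool.Agent.Q56.UN.squares
  refine ⟨R, N₀, δ, κ, C, hδ, hκ, hC, fun N hN => ?_⟩
  have hV : Pool.Agent.Q56.UN.VN N = V N := by
    unfold Pool.Agent.Q56.UN.VN V Pool.Agent.Q56.UN.nuN
    apply prod_congr rfl
    intro q _
    split_ifs <;> norm_num
  have h1 := h N hN
  rw [hV] at h1
  obtain ⟨h2, h3, h4⟩ := h1
  have hcast : ∀ k : ℕ, k ≤ 2 * N → (((N + 1) ^ 2 - k : ℕ) : ℤ) = ((N : ℤ) + 1) ^ 2 - k := by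
    intro k hk
    rw [Nat.cast_sub (by nlinarith)]
    push_cast
    ring
  have hcast0 : ∀ k : ℕ, ((N ^ 2 + k + 1 : ℕ) : ℤ) = (N : ℤ) ^ 2 + k + 1 := by
    intro k; push_cast; ring
  have hAP : ∀ v : ℕ, Pool.Agent.Q56.LN.AP R ((N : ℝ) ^ δ) (v : ℤ) → Alm R ((N : ℝ) ^ δ) v := by
    rintro v ⟨a1, a2, a3⟩
    rw [Int.natAbs_natCast] at a1 a2
    exact ⟨a1, a2, fun q hq hd => a3 q hq (by exact_mod_cast hd)⟩
  refine ⟨h2, ⟨_, h3, ?_⟩, ?_⟩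
  · intro k hk
    rw [mem_filter, mem_Icc] at hk
    obtain ⟨⟨k1, k2⟩, k3, k4⟩ := hk
    rw [← hcast0] at k3
    rw [← hcast k k2] at k4
    exact ⟨k1, k2, hAP _ k3, hAP _ k4⟩
  · intro S hS
    refine le_trans ?_ h4
    rw [Nat.cast_le]
    apply card_le_card
    intro k hk
    obtain ⟨k1, k2, k3, k4⟩ := hS k hk
    rw [mem_filter, mem_Icc]
    refine ⟨⟨k1, k2⟩, ?_, ?_⟩
    · rw [← hcast0, Int.natAbs_natCast]; exact k3
    · rw [← hcast k k2, Int.natAbs_natCast]; exact k4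

end Pool.Agent.Results.MP_e94e4b_nt.AlmostPrimePairs
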