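import Pool.Agent.Q315.RD2

/-!
# Pairs `N ^ 2 + k + 1`, `(N + 1) ^ 2 - k` between consecutive squares for `k` with restricted digits

Let `g ≥ 2` be a base and `K` a large number of digits. For every `i < K` let `A i` be an arbitrary non-empty set of digits. Nothing
is assumed about these sets except that they are not too small on average: the number `|A 0| ⋯ |A (K - 1)|` of the integers
`t < g ^ K` whose `i`-th digit belongs to `A i` for all `i < K` is at least `exp (- c K) g ^ K`, where `c > 0` does not depend on the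
base (`Rich`; for example, a digit is missing everywhere and the base is large, or the digits at an arbitrary set of at most `c' K`
places are prescribed). Let `N ≤ g ^ (E K)` be arbitrary and let `[k₀, k₀ + g ^ K)` be an arbitrary interval in `[2, 2 N]` of this
length, which may be an arbitrarily small power of `N`.

The number of the `k = k₀ + t` in this interval with these `t` for which `N ^ 2 + k + 1` and `(N + 1) ^ 2 - k` have at most `r` prime
factors, all larger than `g ^ (K / r)`, is at least `κ V |A 0| ⋯ |A (K - 1)|`, unless there is an obvious obstruction (no digit `d` in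
`A 0` such that the two numbers for `k = k₀ + d` are prime to `g`); here `V` is the product of `1 - ν (p) / p` over the primes
`p ≤ g ^ K`, where `ν (p)` is the number of the zeros of `(N ^ 2 + 1 + X) ((N + 1) ^ 2 - X)` modulo `p`, the expected order. The number
of the `k = k₀ + t` for which both are primes is at most `C V |A 0| ⋯ |A (K - 1)|`. The constants are independent of the sets `A i`,
of `N` and of `k₀`.

Proof. The theorem on almost prime values of polynomials at integers with restricted digits, uniform in the polynomial, of the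
starting library (`Pool.Agent.Y816.PD.uni_fun`).
-/

set_option autoImplicit false

namespace Pool.Agent.Results.MP_e94e4b_nt.RestrictedDigits

open Filter Finset Polynomial
open Pool.Agent.Q315.RD

/-- The product of `1 - ν / p` over the primes `p ≤ y`, `ν` the number of the zeros of `(N ^ 2 + 1 + X) ((N + 1) ^ 2 - X)` modulo
`p`. -/
noncomputable def V (N y : ℕ) : ℝ := rootDensity (fun k => ((N : ℤ) ^ 2 + 1 + k) * (((N : ℤ) + 1) ^ 2 - k)) y

/-- the forms -/
def F (N k₀ : ℕ) : Fin 2 → ℕ → ℤ := ![fun t => (N : ℤ) ^ 2 + (k₀ + t) + 1, fun t => ((N : ℤ) + 1) ^ 2 - (k₀ + t)]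

lemma V_eq (N k₀ y : ℕ) : rootDensity (fun t => ∏ i, F N k₀ i t) y = V N y := by
  have h := rootDensity_shift ((C ((N : ℤ) ^ 2 + 1) + X) * (C (((N : ℤ) + 1) ^ 2) - X)) k₀ y
  unfold V
  have h1 : (fun n : ℕ => ((C ((N : ℤ) ^ 2 + 1) + X) * (C (((N : ℤ) + 1) ^ 2) - X) : ℤ[X]).eval (n : ℤ)) =
      fun k : ℕ => ((N : ℤ) ^ 2 + 1 + k) * (((N : ℤ) + 1) ^ 2 - k) := by
    funext n
    simp
  have h2 : (fun t : ℕ => ((C ((N : ℤ) ^ 2 + 1) + X) * (C (((N : ℤ) + 1) ^ 2) - X) : ℤ[X]).eval ((k₀ : ℤ) + t)) =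
      fun t : ℕ => ∏ i, F N k₀ i t := by
    funext t
    rw [Fin.prod_univ_two]
    simp only [F, Matrix.cons_val_zero, Matrix.cons_val_one, Matrix.cons_val_fin_one, eval_mul, eval_add, eval_sub, eval_C, eval_X]
    ring
  rw [h1, h2] at h
  exact h

lemma adm (N k₀ p : ℕ) (hp : p.Prime) : ∃ t : ℕ, ¬ (p : ℤ) ∣ ∏ i, F N k₀ i t := by
  have key : ∃ t : ℕ, ¬ (p : ℤ) ∣ ((N : ℤ) ^ 2 + 1 + k₀ + t) * (((N : ℤ) + 1) ^ 2 - k₀ - t) := by
    rcases hp.eq_two_or_odd' with h2 | h2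
    · subst h2
      refine ⟨N + k₀, fun h => ?_⟩
      have h3 : Even (((N : ℤ) ^ 2 + 1 + k₀ + (N + k₀ : ℕ)) * (((N : ℤ) + 1) ^ 2 - k₀ - (N + k₀ : ℕ))) := even_iff_two_dvd.2 h
      push_cast at h3
      rcases Int.even_or_odd' N with ⟨u, hu | hu⟩
      all_goals
        rw [hu] at h3
        refine (Int.not_even_iff_odd.2 (Odd.mul ?_ ?_)) h3
      · exact ⟨2 * u ^ 2 + u + k₀, by ring⟩
      · exact ⟨2 * u ^ 2 + u - k₀, by ring⟩
      · exact ⟨2 * u ^ 2 + 3 * u + 1 + k₀, by ring⟩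
      · exact ⟨2 * u ^ 2 + 3 * u + 1 - k₀, by ring⟩
    · obtain ⟨t, ht⟩ := Pool.Agent.Y816.PD.adm_two hp (by have := hp.two_le; obtain ⟨w, hw⟩ := h2; omega)
        ((N : ℤ) ^ 2 + 1 + k₀) (((N : ℤ) + 1) ^ 2 - k₀)
      exact ⟨t, ht⟩
  obtain ⟨t, ht⟩ := key
  refine ⟨t, fun h => ht ?_⟩
  rw [Fin.prod_univ_two] at h
  have e : F N k₀ 0 t * F N k₀ 1 t = ((N : ℤ) ^ 2 + 1 + k₀ + t) * (((N : ℤ) + 1) ^ 2 - k₀ - t) := by
    simp [F]
    ring
  rwa [e] at h

/-- **Pairs of almost primes between consecutive squares with a fixed sum, at numbers with restricted digits.** -/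
theorem result (E : ℕ) :
    ∃ c : ℝ, 0 < c ∧ ∃ r₀ : ℕ, 2 ≤ r₀ ∧ ∀ r : ℕ, r₀ ≤ r → ∀ g : ℕ, 2 ≤ g → ∃ κ C : ℝ, 0 < κ ∧ 0 < C ∧
      ∀ᶠ K : ℕ in atTop, ∀ N k₀ : ℕ, N ≤ g ^ (E * K) → 2 ≤ k₀ → k₀ + g ^ K ≤ 2 * N + 1 →
        ∀ A : ℕ → Finset ℕ, Rich c g K A →
        ((∃ d ∈ A 0, (N ^ 2 + (k₀ + d) + 1).Coprime g ∧ ((N + 1) ^ 2 - (k₀ + d)).Coprime g) →
          κ * V N (g ^ K) * choices K A ≤
            count g K A fun t => AlmostPrime (g ^ K) r (N ^ 2 + (k₀ + t) + 1) ∧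
              AlmostPrime (g ^ K) r ((N + 1) ^ 2 - (k₀ + t))) ∧
        (count g K A (fun t => (N ^ 2 + (k₀ + t) + 1).Prime ∧ ((N + 1) ^ 2 - (k₀ + t)).Prime) : ℝ) ≤
          C * V N (g ^ K) * choices K A := by
  obtain ⟨c, hc, r₀, hr₀, h⟩ := formsZ 2 (4 * E + 4) (by norm_num)
  refine ⟨c, hc, r₀, hr₀, fun r hr g hg => ?_⟩
  obtain ⟨κ, C, hκ, hC, h1⟩ := h r hr g hg
  refine ⟨κ, C, hκ, hC, ?_⟩
  filter_upwards [h1, eventually_ge_atTop 1] with K hK hK1
  intro N k₀ hN hk₀ hkN A hA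
  have hgK : 2 ≤ g ^ K := (show 2 ≤ g from hg).trans (Nat.le_self_pow (by omega) g)
  have e0 : ∀ t : ℕ, (F N k₀ 0 t).natAbs = N ^ 2 + (k₀ + t) + 1 := by
    intro t
    have : F N k₀ 0 t = ((N ^ 2 + (k₀ + t) + 1 : ℕ) : ℤ) := by
      simp [F]
    rw [this, Int.natAbs_natCast]
  have e1 : ∀ t < g ^ K, (F N k₀ 1 t).natAbs = (N + 1) ^ 2 - (k₀ + t) := by
    intro t ht
    have h3 : k₀ + t ≤ (N + 1) ^ 2 := by nlinarith
    have : F N k₀ 1 t = (((N + 1) ^ 2 - (k₀ + t) : ℕ) : ℤ) := by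
      rw [Nat.cast_sub h3]
      simp [F]
    rw [this, Int.natAbs_natCast]
  have hlt : ∀ t < g ^ K, t + N ^ 2 ≤ (N + 1) ^ 2 - (k₀ + t) + N ^ 2 := by
    intro t ht
    have h3 : (N + 1) ^ 2 = N ^ 2 + 2 * N + 1 := by ring
    have h4 : N ≤ N ^ 2 := Nat.le_self_pow (by norm_num) N
    rw [h3]
    by_cases hN2 : 2 ≤ N
    · have : 2 * N ≤ N ^ 2 := by nlinarith
      omega
    · omega
  obtain ⟨hlow, hup⟩ := hK 2 (F N k₀)
    ⟨(Polynomial.C ((N : ℤ) ^ 2 + (k₀ : ℤ) + 1) + X) * (Polynomial.C (((N : ℤ) + 1) ^ 2 - (k₀ : ℤ)) - X), by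
      refine natDegree_mul_le.trans (Nat.add_le_add (b := 1) (d := 1) ?_ ?_) <;> compute_degree, fun t => by
      rw [Fin.prod_univ_two]
      simp only [F, Matrix.cons_val_zero, Matrix.cons_val_one, Matrix.cons_val_fin_one, eval_mul, eval_add, eval_sub, eval_C, eval_X]
      ring⟩
    (fun p hp => adm N k₀ p hp)
    (fun t ht i => by
      fin_cases i
      · simp only [Fin.zero_eta]
        rw [e0]
        omega
      · simp only [Fin.mk_one]
        rw [e1 t ht]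
        have := hlt t ht
        omega)
    (fun t ht => by
      rw [Fin.prod_univ_two, e0, e1 t ht]
      have h4 : (N + 1) ^ 2 ≤ g ^ ((2 * E + 2) * K) := by
        have h5 : N + 1 ≤ g ^ ((E + 1) * K) := by
          calc N + 1 ≤ g ^ (E * K) * 2 := by
                have : 1 ≤ g ^ (E * K) := Nat.one_le_pow _ _ (by omega)
                omega
            _ ≤ g ^ (E * K) * g ^ K := Nat.mul_le_mul_left _ hgK
            _ = g ^ ((E + 1) * K) := by rw [← pow_add]; congr 1; ring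
        calc (N + 1) ^ 2 ≤ (g ^ ((E + 1) * K)) ^ 2 := Nat.pow_le_pow_left h5 2
          _ = g ^ ((2 * E + 2) * K) := by rw [← pow_mul]; congr 1; ring
      have h6 : (N + 1) ^ 2 = N ^ 2 + 2 * N + 1 := by ring
      calc (N ^ 2 + (k₀ + t) + 1) * ((N + 1) ^ 2 - (k₀ + t)) ≤ (N + 1) ^ 2 * (N + 1) ^ 2 :=
            Nat.mul_le_mul (by omega) (Nat.sub_le _ _)
        _ ≤ g ^ ((2 * E + 2) * K) * g ^ ((2 * E + 2) * K) := Nat.mul_le_mul h4 h4
        _ = g ^ ((4 * E + 4) * K) := by rw [← pow_add]; congr 1; ring) A hA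
  rw [V_eq] at hlow hup
  simp only [Fin.forall_fin_two] at hlow hup
  constructor
  · rintro ⟨d, hd, hd0, hd1⟩
    have hdK : d < g ^ K := by
      have := mem_range.1 (hA.1 0 (by omega) hd)
      exact this.trans_le (Nat.le_self_pow (by omega) g)
    refine (hlow ⟨d, hd, by rw [e0]; exact hd0, by rw [e1 d hdK]; exact hd1⟩).trans (Nat.cast_le.2 (count_mono ?_))
    rintro t ht ⟨ha, hb⟩
    rw [e0] at ha
    rw [e1 t ht] at hb
    exact ⟨ha, hb⟩
  · refine le_trans (Nat.cast_le.2 (count_mono ?_)) hup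
    rintro t ht ⟨ha, hb⟩
    rw [e0, e1 t ht]
    exact ⟨ha, hb⟩

end Pool.Agent.Results.MP_e94e4b_nt.RestrictedDigits
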