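import Pool.Agent.Q25.UReg6

/-!
# The laws of the almost prime pairs between consecutive squares with fixed sum, for every `N`

For EVERY large `N` call `k` good if neither `N ^ 2 + k + 1` nor `(N + 1) ^ 2 - k` has a prime factor `≤ N ^ (1/r)`. In ALL
intervals of length at least `N ^ θ` the numbers of the good `k` in windows follow the Poisson law and the gaps between
the good `k` are exponentially distributed, and almost all elements of an ARBITRARY set of good `k` (for instance of the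
`k` for which both numbers are prime) are regular points of this set.
-/

set_option autoImplicit false

namespace Pool.Agent.Results.MP_e94e4b_nt.UniformLaws

open Finset
open Pool.Agent.Q25.UReg (Good V count pois PoissonLaw GapLaw N RightOrder ConstantDensity badScales Irregular)

/-- the coefficients of `k + (M ^ 2 + 1)` and `-k + (M + 1) ^ 2` -/
def co : Fin 2 → ℤ := ![1, -1]

/-- the constant terms of `k + (M ^ 2 + 1)` and `-k + (M + 1) ^ 2` -/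
def ct (M : ℕ) : Fin 2 → ℤ := ![(M : ℤ) ^ 2 + 1, ((M : ℤ) + 1) ^ 2]

lemma co_ne (i : Fin 2) : co i ≠ 0 := by
  fin_cases i
  · change (1 : ℤ) ≠ 0
    norm_num
  · change (-1 : ℤ) ≠ 0
    norm_num

lemma adm (M : ℕ) (p : ℕ) (hp : p.Prime) : ∃ m : ℤ, ∀ i, ¬ (p : ℤ) ∣ co i * m + ct M i := by
  rcases hp.two_le.lt_or_eq with h2 | h2
  · apply Pool.Agent.Q25.UReg.adm_small co (ct M) p hp h2
    have h1 : ¬ (p : ℤ) ∣ 1 := fun h => hp.one_lt.ne' (Nat.dvd_one.1 (by exact_mod_cast h))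
    intro i h
    fin_cases i
    · exact h1 h.1
    · exact h1 ((dvd_neg).1 h.1)
  · subst h2
    refine ⟨(M : ℤ) ^ 2, fun i => ?_⟩
    fin_cases i
    · change ¬ ((2 : ℕ) : ℤ) ∣ 1 * (M : ℤ) ^ 2 + ((M : ℤ) ^ 2 + 1)
      omega
    · change ¬ ((2 : ℕ) : ℤ) ∣ (-1) * (M : ℤ) ^ 2 + ((M : ℤ) + 1) ^ 2
      have e : (-1) * (M : ℤ) ^ 2 + ((M : ℤ) + 1) ^ 2 = 2 * M + 1 := by ring
      rw [e]
      omega

lemma two (M : ℕ) : Pool.Agent.Q25.UReg.TwoForms co (ct M) := by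
  refine ⟨0, 1, ?_, ?_⟩
  · rintro ⟨h, -⟩
    change (1 : ℤ) = -1 at h
    omega
  · rintro ⟨-, h⟩
    change (M : ℤ) ^ 2 + 1 = -(((M : ℤ) + 1) ^ 2) at h
    have h1 : (0 : ℤ) ≤ (M : ℤ) ^ 2 := by positivity
    have h2 : (0 : ℤ) ≤ ((M : ℤ) + 1) ^ 2 := by positivity
    omega

lemma noTr (M : ℕ) (hM : 1 ≤ M) : Pool.Agent.Q25.UReg.NoTranslates2 co (ct M) ((M : ℝ) ^ (1 : ℝ)) := by
  intro i j t ht htU
  rw [Real.rpow_one] at htU
  have h1 : t ≤ M := by exact_mod_cast htU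
  have hM0 : (0 : ℤ) ≤ (M : ℤ) := by positivity
  have h2 : (0 : ℤ) ≤ (M : ℤ) ^ 2 := by positivity
  have h3 : ((M : ℤ) + 1) ^ 2 = (M : ℤ) ^ 2 + 2 * M + 1 := by ring
  fin_cases i <;> fin_cases j
  · refine ⟨fun h => ?_, fun h => ?_⟩
    · have := h.2
      change (M : ℤ) ^ 2 + 1 = (M : ℤ) ^ 2 + 1 + 1 * t at this
      omega
    · have := h.1
      change (1 : ℤ) = -1 at this
      omega
  · refine ⟨fun h => ?_, fun h => ?_⟩
    · have := h.1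
      change (1 : ℤ) = -1 at this
      omega
    · have := h.2
      change (M : ℤ) ^ 2 + 1 = -(((M : ℤ) + 1) ^ 2 + (-1) * t) at this
      omega
  · refine ⟨fun h => ?_, fun h => ?_⟩
    · have := h.1
      change (-1 : ℤ) = 1 at this
      omega
    · have := h.2
      change ((M : ℤ) + 1) ^ 2 = -((M : ℤ) ^ 2 + 1 + 1 * t) at this
      omega
  · refine ⟨fun h => ?_, fun h => ?_⟩
    · have := h.2
      change ((M : ℤ) + 1) ^ 2 = ((M : ℤ) + 1) ^ 2 + (-1) * t at this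
      omega
    · have := h.1
      change (-1 : ℤ) = -(-1) at this
      omega

lemma bounds (M : ℕ) (hM : 3 ≤ M) : (∀ i, |(co i : ℝ)| ≤ (M : ℝ) ^ (3 : ℝ)) ∧ ∀ i, |(ct M i : ℝ)| ≤ (M : ℝ) ^ (3 : ℝ) := by
  have hM' : (3 : ℝ) ≤ M := by exact_mod_cast hM
  have e : (M : ℝ) ^ (3 : ℝ) = (M : ℝ) ^ 3 := by
    rw [show (3 : ℝ) = ((3 : ℕ) : ℝ) by norm_num, Real.rpow_natCast]
  rw [e]
  have h1 : (1 : ℝ) ≤ (M : ℝ) ^ 3 := one_le_pow₀ (by linarith)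
  have h2 : ((M : ℝ) + 1) ^ 2 ≤ (M : ℝ) ^ 3 := by nlinarith [mul_nonneg (by linarith : (0 : ℝ) ≤ M) (by linarith : (0 : ℝ) ≤ (M : ℝ) - 3), sq_nonneg ((M : ℝ))]
  constructor
  · intro i
    fin_cases i
    · change |((1 : ℤ) : ℝ)| ≤ _
      simpa using h1
    · change |((-1 : ℤ) : ℝ)| ≤ _
      simpa using h1
  · intro i
    fin_cases i
    · change |(((M : ℤ) ^ 2 + 1 : ℤ) : ℝ)| ≤ _
      push_cast
      rw [abs_of_nonneg (by positivity)]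
      nlinarith
    · change |((((M : ℤ) + 1) ^ 2 : ℤ) : ℝ)| ≤ _
      push_cast
      rw [abs_of_nonneg (by positivity)]
      exact h2

/-- **The laws of the almost prime pairs between consecutive squares with fixed sum, for every `M`.** -/
theorem result (θ : ℝ) (hθ : 0 < θ) :
    (∀ (l₀ : ℕ) (x₀ ε : ℝ), 0 < ε → ∃ r₀ : ℕ, ∀ r : ℕ, r₀ ≤ r → ∃ M₀ : ℕ, ∀ M : ℕ, M₀ ≤ M →
      ∀ Z Y : ℕ, (M : ℝ) ^ θ ≤ Y → PoissonLaw co (ct M) r M Z Y x₀ ε ∧ GapLaw co (ct M) r M Z Y l₀ x₀ ε) ∧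
    ∃ r₀ : ℕ, ∀ r : ℕ, r₀ ≤ r → ∀ ε : ℝ, 0 < ε → ∃ c : ℝ, 0 < c ∧ ∀ δ : ℝ, 0 < δ → ∃ B M₀ : ℕ,
      ∀ M : ℕ, M₀ ≤ M → ∀ u Y : ℕ, (M : ℝ) ^ θ ≤ Y → Y ≤ M → Y ≤ u →
        ∀ A : Set ℕ, (∀ k ∈ A, Good co (ct M) r M k) →
          (N (Irregular A (V co (ct M) r M) c δ B Y) u (u + Y) : ℝ) ≤ ε * (Y * V co (ct M) r M) := by
  constructor
  · intro l₀ x₀ ε hε
    obtain ⟨r₀, _, h⟩ := Pool.Agent.Q25.UReg.lin_laws2 2 3 1 θ (by norm_num) one_pos hθ l₀ x₀ ε hε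
    refine ⟨r₀, fun r hr => ?_⟩
    obtain ⟨M₀, hM₀⟩ := Filter.eventually_atTop.1 ((h r hr).and (Filter.eventually_ge_atTop 3))
    refine ⟨M₀, fun M hM Z Y hY => ?_⟩
    obtain ⟨h1, h2⟩ := hM₀ M hM
    exact h1 co (ct M) co_ne (bounds M h2).1 (bounds M h2).2 (adm M) (two M) (noTr M (by omega)) Z Y hY
  · obtain ⟨r₀, _, h⟩ := Pool.Agent.Q25.UReg.lin_reg2 2 3 θ (by norm_num) hθ
    refine ⟨r₀, fun r hr ε hε => ?_⟩
    obtain ⟨c, hc, h1⟩ := h r hr ε hε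
    refine ⟨c, hc, fun δ hδ => ?_⟩
    obtain ⟨B, hB⟩ := h1 δ hδ
    obtain ⟨M₀, hM₀⟩ := Filter.eventually_atTop.1 (hB.and (Filter.eventually_ge_atTop 3))
    refine ⟨B, M₀, fun M hM u Y hXY hYX hYu A hA => ?_⟩
    obtain ⟨h1, h2⟩ := hM₀ M hM
    exact h1 co (ct M) co_ne (bounds M h2).1 (bounds M h2).2 (adm M) (two M) u Y hXY hYX hYu A hA

end Pool.Agent.Results.MP_e94e4b_nt.UniformLaws
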